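import Pool.Agent.K3h46.RB.Moment
import Pool.Agent.K3h46.MU.Windows

/-!
# Sets which contain a positive proportion of residue classes for many moduli
-/

set_option autoImplicit false

open Finset

namespace Pool.Agent.K3h46.RB

open Pool.Agent.K3h46.MU (Bound starts prog_moment fst fst_mod fst_ge fst_lt win win_disj)

/-- the elements of `E` in the class `r` modulo `q` -/
def cls (E : Finset ℕ) (q r : ℕ) : Finset ℕ := E.filter fun n => n % q = r

open Classical in
/-- the classes modulo `q` of which `E ⊆ [1, N]` contains the proportion `lam` -/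
noncomputable def denseCls (lam : ℝ) (N : ℕ) (E : Finset ℕ) (q : ℕ) : Finset ℕ :=
  (range q).filter fun r => lam * N / q ≤ (cls E q r).card

/-- the elements of `E` in the class `r` modulo `q` and in the window `t` -/
def blk (E : Finset ℕ) (M W q r t : ℕ) : Finset ℕ :=
  (range M).filter fun i => fst W q r t + i * q ∈ E ∩ win W t

theorem exists_index {W q r t n M : ℕ} (hq : 0 < q) (hr : r < q) (hM : W ≤ (M - 1) * q)
    (hM0 : 1 ≤ M) (hn : n ∈ win W t) (hnr : n % q = r) : ∃ i < M, n = fst W q r t + i * q := by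
  rw [win, mem_Icc] at hn
  have h1 := fst_lt (W := W) (r := r) (j := t) hq
  have h2 := fst_mod (W := W) (j := t) hq hr
  have h3 := fst_ge W q r t
  -- `n` is at least the first element
  have h4 : fst W q r t ≤ n := by
    by_contra hcon
    push Not at hcon
    have h5 : (fst W q r t) % q = n % q := by rw [h2, hnr]
    have h6 : (fst W q r t - n) % q = 0 := Nat.sub_mod_eq_zero_of_mod_eq h5
    have h7 : fst W q r t - n < q := by omega
    rw [Nat.mod_eq_of_lt h7] at h6
    omega
  have h5 : n % q = (fst W q r t) % q := by rw [h2, hnr]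
  have h6 : (n - fst W q r t) % q = 0 := Nat.sub_mod_eq_zero_of_mod_eq h5
  obtain ⟨i, hi⟩ := Nat.dvd_of_mod_eq_zero h6
  refine ⟨i, ?_, by rw [mul_comm]; omega⟩
  by_contra hcon
  push Not at hcon
  have h7 : (M - 1) * q + q ≤ q * i := by
    have : M * q ≤ i * q := Nat.mul_le_mul_right q hcon
    have e : (M - 1) * q + q = M * q := by
      have : M = (M - 1) + 1 := by omega
      nth_rewrite 2 [this]
      ring
    rw [e, mul_comm q i]
    exact this
  omega

/-- the class is covered by the windows -/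
theorem cls_card {N M W q r : ℕ} (hq : 0 < q) (hr : r < q) (hM : W ≤ (M - 1) * q) (hM0 : 1 ≤ M)
    (hW : 0 < W) {E : Finset ℕ} (hE : E ⊆ Icc 1 N) :
    (cls E q r).card ≤ ∑ t ∈ range (N / W), (blk E M W q r t).card + M := by
  classical
  have hsub : cls E q r ⊆ (range (N / W + 1)).biUnion fun t =>
      (blk E M W q r t).image fun i => fst W q r t + i * q := by
    intro n hn
    unfold cls at hn
    rw [mem_filter] at hn
    have h1 := mem_Icc.1 (hE hn.1)
    have hdm := Nat.div_add_mod (n - 1) W
    have hlt := Nat.mod_lt (n - 1) hW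
    have h2 : n ∈ win W ((n - 1) / W) := by
      rw [win, mem_Icc, mul_comm ((n - 1) / W) W]
      constructor <;> omega
    obtain ⟨i, hi, hni⟩ := exists_index hq hr hM hM0 h2 hn.2
    rw [mem_biUnion]
    refine ⟨(n - 1) / W, ?_, ?_⟩
    · rw [mem_range, Nat.lt_succ_iff]
      exact Nat.div_le_div_right (by omega)
    · rw [mem_image]
      refine ⟨i, ?_, hni.symm⟩
      unfold blk
      rw [mem_filter, mem_range, ← hni]
      exact ⟨hi, mem_inter.2 ⟨hn.1, h2⟩⟩
  refine (card_le_card hsub).trans (card_biUnion_le.trans ?_)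
  refine (sum_le_sum fun t _ => card_image_le).trans ?_
  rw [sum_range_succ]
  apply Nat.add_le_add_left
  calc (blk E M W q r (N / W)).card ≤ (range M).card := card_le_card (filter_subset _ _)
    _ = M := card_range M

/-- **the moment inequality for dense classes** -/
theorem portions {S : Finset ℚ} {κ : ℝ} (h1 : 1 < κ) (h2 : κ ≤ 2) (hS : (-1 : ℚ) ∉ S)
    (hB : Bound S κ) (lam : ℝ) (hlam : 0 < lam) : ∃ C : ℝ, 1 ≤ C ∧ ∀ N Q : ℕ, 1 ≤ Q →
      C * Q ≤ N → ∀ E ⊆ Icc 1 N, ∑ q ∈ Ico Q (2 * Q), ((denseCls lam N E q).card : ℝ) ^ (κ - 1) ≤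
        C * ((E.card : ℝ) * Q / N) ^ κ := by
  classical
  have hκ : 0 < κ - 1 := by linarith
  obtain ⟨k, hk1, hprog⟩ := prog_moment h1 h2 hS hB
  obtain ⟨c₀, hc₀⟩ : ∃ c₀ : ℝ, c₀ = lam / 12 := ⟨_, rfl⟩
  have hc₀0 : 0 < c₀ := by rw [hc₀]; positivity
  obtain ⟨l, hl1, hl⟩ := szem k c₀ hc₀0
  have hl1r : (1 : ℝ) ≤ l := by exact_mod_cast hl1
  obtain ⟨M, hM⟩ : ∃ M : ℕ, M = 2 * l + 1 := ⟨_, rfl⟩
  obtain ⟨c, hc⟩ : ∃ c : ℝ, c = c₀ / 2 := ⟨_, rfl⟩
  have hc0 : 0 < c := by rw [hc]; positivity
  obtain ⟨C₁, hC₁⟩ : ∃ C₁ : ℝ, C₁ = 4 * (2 * l + 1) / lam := ⟨_, rfl⟩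
  obtain ⟨C₂, hC₂⟩ : ∃ C₂ : ℝ, C₂ = 2 * l * (2 / c) ^ κ * (8 * l / c₀) ^ κ := ⟨_, rfl⟩
  have hC₂0 : 0 ≤ C₂ := by rw [hC₂]; positivity
  refine ⟨max 1 (max C₁ (max C₂ (2 * l))), le_max_left _ _, fun N Q hQ hN E hE => ?_⟩
  have hQ0 : (0 : ℝ) < Q := by exact_mod_cast hQ
  have hN1 : C₁ * Q ≤ N := le_trans (by
    gcongr
    exact (le_max_left _ _).trans (le_max_right _ _)) hN
  have hN2 : 2 * (l : ℝ) * Q ≤ N := le_trans (by
    gcongr
    exact (le_max_right _ _).trans ((le_max_right _ _).trans (le_max_right _ _))) hN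
  have hCC : C₂ ≤ max 1 (max C₁ (max C₂ (2 * l))) :=
    (le_max_left _ _).trans ((le_max_right _ _).trans (le_max_right _ _))
  have hN0 : (0 : ℝ) < N := lt_of_lt_of_le (by positivity) hN2
  obtain ⟨W, hW⟩ : ∃ W : ℕ, W = 2 * l * Q := ⟨_, rfl⟩
  have hW0 : 0 < W := by rw [hW]; positivity
  have hWr : (W : ℝ) = 2 * l * Q := by rw [hW]; push_cast; ring
  obtain ⟨J, hJ⟩ : ∃ J : ℕ, J = N / W := ⟨_, rfl⟩
  have hJN : J * W ≤ N := by rw [hJ]; exact Nat.div_mul_le_self N W
  have hWN : W ≤ N := by
    have : (W : ℝ) ≤ N := by rw [hWr]; exact hN2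
    exact_mod_cast this
  have hJ1 : 1 ≤ J := by
    rw [hJ]
    exact (Nat.one_le_div_iff hW0).2 hWN
  have hJ0 : (0 : ℝ) < J := by exact_mod_cast hJ1
  have hJlow : (N : ℝ) ≤ 2 * J * W := by
    have a1 : N < (J + 1) * W := by
      have := Nat.lt_mul_div_succ N hW0
      rw [← hJ] at this
      rw [mul_comm]
      exact this
    have a2 : (J + 1) * W ≤ 2 * J * W := Nat.mul_le_mul_right W (by omega)
    exact_mod_cast (a1.le.trans a2)
  -- light windows
  obtain ⟨G, hG⟩ : ∃ G : Finset ℕ, G = (range J).filter fun t =>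
      c₀ * J * ((E ∩ win W t).card : ℝ) ≤ 2 * E.card := ⟨_, rfl⟩
  have hheavy : (((range J).filter fun t =>
      ¬ c₀ * J * ((E ∩ win W t).card : ℝ) ≤ 2 * E.card).card : ℝ) ≤ c₀ / 2 * J := by
    obtain ⟨H, hH⟩ : ∃ H : Finset ℕ, H = (range J).filter fun t =>
      ¬ c₀ * J * ((E ∩ win W t).card : ℝ) ≤ 2 * E.card := ⟨_, rfl⟩
    rw [← hH]
    have a1 : ∑ t ∈ H, (E ∩ win W t).card ≤ E.card := by
      rw [← card_biUnion]
      · apply card_le_card
        intro n hn
        rw [mem_biUnion] at hn
        obtain ⟨j, _, hn⟩ := hn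
        exact (mem_inter.1 hn).1
      · intro i _ j _ hij
        exact (win_disj hij).mono inter_subset_right inter_subset_right
    have a2 : (H.card : ℝ) * (2 * E.card) ≤ c₀ * J * E.card := by
      calc (H.card : ℝ) * (2 * E.card) = ∑ _t ∈ H, (2 * (E.card : ℝ)) := by
            rw [sum_const, nsmul_eq_mul]
        _ ≤ ∑ t ∈ H, c₀ * J * ((E ∩ win W t).card : ℝ) := by
            refine sum_le_sum fun t ht => ?_
            rw [hH, mem_filter] at ht
            exact (not_le.1 ht.2).le
        _ = c₀ * J * ∑ t ∈ H, ((E ∩ win W t).card : ℝ) := by rw [mul_sum]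
        _ ≤ c₀ * J * E.card := by
            gcongr
            exact_mod_cast a1
    rcases (Nat.zero_le E.card).eq_or_lt with h0 | h0
    · have : H = ∅ := by
        rw [hH, filter_eq_empty_iff]
        intro t _ hcon
        apply hcon
        have : (E ∩ win W t).card = 0 := by
          have := card_le_card (inter_subset_left : E ∩ win W t ⊆ E)
          omega
        rw [this, ← h0]
        simp
      rw [this, card_empty, Nat.cast_zero]
      positivity
    · have h0' : (0 : ℝ) < E.card := by exact_mod_cast h0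
      have a3 : (H.card : ℝ) * 2 * E.card ≤ c₀ * J * E.card := by linarith
      have := le_of_mul_le_mul_right a3 h0'
      linarith
  -- the good windows of a dense class
  have hgood : ∀ q ∈ Ico Q (2 * Q), ∀ r ∈ denseCls lam N E q, c * J ≤
      ((G.filter fun t => c₀ * M ≤ (blk E M W q r t).card).card : ℝ) := by
    intro q hq r hr
    rw [mem_Ico] at hq
    unfold denseCls at hr
    rw [mem_filter, mem_range] at hr
    have hq0 : 0 < q := by omega
    have hq0r : (0 : ℝ) < q := by exact_mod_cast hq0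
    have hqQ : (q : ℝ) ≤ 2 * Q := by exact_mod_cast hq.2.le
    have hMW : W ≤ (M - 1) * q := by
      rw [hM, hW]
      have : 2 * l + 1 - 1 = 2 * l := by omega
      rw [this]
      exact Nat.mul_le_mul_left _ hq.1
    have a1 := cls_card (N := N) hq0 hr.1 hMW (by omega) hW0 hE
    rw [← hJ] at a1
    have a2 : lam * N / q ≤ ∑ t ∈ range J, ((blk E M W q r t).card : ℝ) + M := by
      refine hr.2.trans ?_
      exact_mod_cast a1
    have a3 : 2 * (M : ℝ) ≤ lam * N / q := by
      rw [le_div_iff₀ hq0r, hM]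
      push_cast
      rw [hC₁, div_mul_eq_mul_div, div_le_iff₀ hlam] at hN1
      calc 2 * (2 * (l : ℝ) + 1) * q ≤ 2 * (2 * (l : ℝ) + 1) * (2 * Q) := by gcongr
        _ ≤ lam * N := by linarith
    have a4 : 2 * c₀ * J * M ≤ lam * N / q / 2 := by
      rw [div_div, le_div_iff₀ (by positivity)]
      have b1 : (J : ℝ) * (2 * l * Q) ≤ N := by
        rw [← hWr]
        exact_mod_cast hJN
      have b2 : (M : ℝ) ≤ 3 * l := by
        rw [hM]
        push_cast
        linarith
      calc 2 * c₀ * J * M * (q * 2) ≤ 2 * c₀ * J * (3 * l) * (2 * Q * 2) := by gcongr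
        _ = lam * (J * (2 * l * Q)) := by rw [hc₀]; ring
        _ ≤ lam * N := by gcongr
    have a5 : 2 * c₀ * J * M ≤ ∑ t ∈ range J, ((blk E M W q r t).card : ℝ) := by linarith
    -- the windows with many elements
    obtain ⟨V, hV⟩ : ∃ V : Finset ℕ, V = (range J).filter fun t =>
        c₀ * M ≤ (blk E M W q r t).card := ⟨_, rfl⟩
    have hM0 : (0 : ℝ) < M := by
      rw [hM]
      positivity
    have a6 : c₀ * J ≤ V.card := by
      have b1 : ∑ t ∈ range J, ((blk E M W q r t).card : ℝ) ≤ V.card * M + J * (c₀ * M) := by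
        rw [← sum_filter_add_sum_filter_not (range J) (fun t =>
          c₀ * M ≤ ((blk E M W q r t).card : ℝ)), ← hV]
        apply add_le_add
        · calc ∑ t ∈ V, ((blk E M W q r t).card : ℝ) ≤ ∑ _t ∈ V, (M : ℝ) := by
                refine sum_le_sum fun t _ => ?_
                have : (blk E M W q r t).card ≤ (range M).card := card_le_card (filter_subset _ _)
                rw [card_range] at this
                exact_mod_cast this
            _ = _ := by rw [sum_const, nsmul_eq_mul]
        · calc _ ≤ ∑ _t ∈ (range J).filter (fun t => ¬ c₀ * M ≤ ((blk E M W q r t).card : ℝ)),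
                (c₀ * M) := sum_le_sum fun t ht => (not_le.1 (mem_filter.1 ht).2).le
            _ ≤ J * (c₀ * M) := by
                rw [sum_const, nsmul_eq_mul]
                have : ((range J).filter (fun t => ¬ c₀ * M ≤ ((blk E M W q r t).card : ℝ))).card ≤
                    J := by
                  have := card_le_card (filter_subset (fun t =>
                    ¬ c₀ * M ≤ ((blk E M W q r t).card : ℝ)) (range J))
                  rwa [card_range] at this
                gcongr
      have b2 : c₀ * J * M ≤ V.card * M := by linarith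
      exact le_of_mul_le_mul_right b2 hM0
    have a7 : V.card ≤ (G.filter fun t => c₀ * M ≤ ((blk E M W q r t).card : ℝ)).card +
        ((range J).filter fun t => ¬ c₀ * J * ((E ∩ win W t).card : ℝ) ≤ 2 * E.card).card := by
      rw [← card_union_add_card_inter]
      refine le_trans (card_le_card ?_) (Nat.le_add_right _ _)
      intro t ht
      rw [hV, mem_filter] at ht
      rw [mem_union, mem_filter, mem_filter, hG, mem_filter]
      by_cases hh : c₀ * J * ((E ∩ win W t).card : ℝ) ≤ 2 * E.card
      · exact Or.inl ⟨⟨ht.1, hh⟩, ht.2⟩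
      · exact Or.inr ⟨ht.1, hh⟩
    have a8 : (V.card : ℝ) ≤ ((G.filter fun t => c₀ * M ≤ ((blk E M W q r t).card : ℝ)).card : ℝ) +
        (((range J).filter fun t => ¬ c₀ * J * ((E ∩ win W t).card : ℝ) ≤ 2 * E.card).card : ℝ) := by
      exact_mod_cast a7
    rw [hc]
    linarith
  obtain ⟨m, hm⟩ : ∃ m : ℕ → ℕ → ℕ, ∀ q t, m q t = ((denseCls lam N E q).filter fun r =>
      c₀ * M ≤ (blk E M W q r t).card).card := ⟨_, fun _ _ => rfl⟩
  -- each light window
  have hwin : ∀ t ∈ G, ∑ q ∈ Ico Q (2 * Q), (m q t : ℝ) ^ (κ - 1) ≤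
      2 * l * (8 * l / c₀ * ((E.card : ℝ) * Q / N)) ^ κ := by
    intro t ht
    obtain ⟨T, hT⟩ : ∃ T : Finset ℤ, T = (E ∩ win W t).image fun n : ℕ => (n : ℤ) := ⟨_, rfl⟩
    have hTc : T.card = (E ∩ win W t).card := by
      rw [hT]
      exact card_image_of_injective _ Nat.cast_injective
    have b1 : ∀ q ∈ Ico Q (2 * Q), m q t ≤ ∑ d ∈ Icc 1 (2 * l), (starts k T ((d : ℤ) * q)).card := by
      intro q hq
      rw [mem_Ico] at hq
      have hq0 : 0 < q := by omega
      rw [hm]
      have hsub : ((denseCls lam N E q).filter fun r => c₀ * M ≤ (blk E M W q r t).card) ⊆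
          (Icc 1 (2 * l)).biUnion fun d => (starts k T ((d : ℤ) * q)).image fun x : ℤ =>
            (x % q).toNat := by
        intro r hr
        rw [mem_filter] at hr
        have hrq : r < q := by
          have := hr.1
          unfold denseCls at this
          rw [mem_filter, mem_range] at this
          exact this.1
        obtain ⟨a, d, hd, had⟩ := hl M (by omega) (blk E M W q r t) (filter_subset _ _) hr.2
        have hmem : ∀ j ≤ k, ((fst W q r t + a * q : ℕ) : ℤ) + j * ((d : ℤ) * q) ∈ T := by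
          intro j hj
          have h3 := had j hj
          unfold blk at h3
          rw [mem_filter] at h3
          rw [hT, mem_image]
          exact ⟨_, h3.2, by push_cast; ring⟩
        rw [mem_biUnion]
        refine ⟨d, ?_, ?_⟩
        · rw [mem_Icc]
          refine ⟨hd, ?_⟩
          have h3 := had 1 hk1
          unfold blk at h3
          rw [mem_filter, mem_range] at h3
          omega
        · rw [mem_image]
          refine ⟨((fst W q r t + a * q : ℕ) : ℤ), ?_, ?_⟩
          · unfold starts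
            rw [mem_filter]
            refine ⟨?_, fun i hi => hmem i (by omega)⟩
            have := hmem 0 (by omega)
            simpa using this
          · have h3 : (fst W q r t + a * q) % q = r := by
              rw [Nat.add_mul_mod_self_right]
              exact fst_mod hq0 hrq
            rw [← Int.natCast_mod, Int.toNat_natCast]
            exact h3
      refine (card_le_card hsub).trans (card_biUnion_le.trans ?_)
      exact sum_le_sum fun d _ => card_image_le
    have b2 : ∀ d ∈ Icc 1 (2 * l), ∑ q ∈ Ico Q (2 * Q),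
        ((starts k T ((d : ℤ) * q)).card : ℝ) ^ (κ - 1) ≤ (T.card : ℝ) ^ κ := by
      intro d hd
      rw [mem_Icc] at hd
      have h3 := hprog T ((Ico Q (2 * Q)).image fun q : ℕ => (d : ℤ) * q)
      rw [sum_image] at h3
      · exact h3
      · intro x _ y _ hxy
        have hd0 : (d : ℤ) ≠ 0 := by
          have : d ≠ 0 := by omega
          exact_mod_cast this
        have := mul_left_cancel₀ hd0 hxy
        exact_mod_cast this
    have b3 : (T.card : ℝ) ≤ 8 * l / c₀ * ((E.card : ℝ) * Q / N) := by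
      rw [hTc]
      rw [hG, mem_filter] at ht
      have h3 : ((E ∩ win W t).card : ℝ) ≤ 2 * E.card / (c₀ * J) := by
        rw [le_div_iff₀ (by positivity)]
        linarith [ht.2]
      refine h3.trans ?_
      rw [div_mul_div_comm, div_le_div_iff₀ (by positivity) (by positivity)]
      calc 2 * (E.card : ℝ) * (c₀ * N) ≤ 2 * (E.card : ℝ) * (c₀ * (2 * J * W)) := by gcongr
        _ = 8 * l * (E.card * Q) * (c₀ * J) := by rw [hWr]; ring
    calc ∑ q ∈ Ico Q (2 * Q), (m q t : ℝ) ^ (κ - 1) ≤ ∑ q ∈ Ico Q (2 * Q), ∑ d ∈ Icc 1 (2 * l),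
          ((starts k T ((d : ℤ) * q)).card : ℝ) ^ (κ - 1) := by
          refine sum_le_sum fun q hq => ?_
          refine le_trans ?_ (sum_rpow_le _ (fun d : ℕ => ((starts k T ((d : ℤ) * q)).card : ℝ))
            (fun i _ => Nat.cast_nonneg _) hκ (by linarith))
          apply Real.rpow_le_rpow (Nat.cast_nonneg _) _ hκ.le
          exact_mod_cast b1 q hq
      _ = ∑ d ∈ Icc 1 (2 * l), ∑ q ∈ Ico Q (2 * Q),
          ((starts k T ((d : ℤ) * q)).card : ℝ) ^ (κ - 1) := sum_comm
      _ ≤ ∑ _d ∈ Icc 1 (2 * l), (T.card : ℝ) ^ κ := sum_le_sum b2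
      _ = 2 * l * (T.card : ℝ) ^ κ := by
          rw [sum_const, nsmul_eq_mul, Nat.card_Icc, Nat.add_sub_cancel]
          push_cast
          rfl
      _ ≤ _ := by
          gcongr
  -- averaging over the light windows
  have havg : ∀ q ∈ Ico Q (2 * Q), G.card * (c / 2) ^ κ *
      ((denseCls lam N E q).card : ℝ) ^ (κ - 1) ≤ ∑ t ∈ G, (m q t : ℝ) ^ (κ - 1) := by
    intro q hq
    have h3 := avg_rpow G (fun t => (m q t : ℝ)) (c := c)
      (R := ((denseCls lam N E q).card : ℝ)) (p := κ - 1) hc0 (Nat.cast_nonneg _) hκ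
      (fun t _ => Nat.cast_nonneg _) (fun t _ => by
        have : m q t ≤ (denseCls lam N E q).card := by
          rw [hm]
          exact card_filter_le _ _
        exact_mod_cast this) (by
        have hdc := Finset.sum_card_bipartiteAbove_eq_sum_card_bipartiteBelow
          (fun (t r : ℕ) => c₀ * M ≤ ((blk E M W q r t).card : ℝ)) (s := G)
          (t := denseCls lam N E q)
        have hdc' : ∑ t ∈ G, (m q t : ℝ) = ∑ r ∈ denseCls lam N E q,
            ((G.filter fun t => c₀ * M ≤ ((blk E M W q r t).card : ℝ)).card : ℝ) := by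
          have e1 : ∑ t ∈ G, m q t = ∑ r ∈ denseCls lam N E q,
              (G.filter fun t => c₀ * M ≤ ((blk E M W q r t).card : ℝ)).card := by
            rw [sum_congr rfl fun t _ => hm q t]
            exact hdc
          exact_mod_cast e1
        rw [hdc']
        have hGJ : (G.card : ℝ) ≤ J := by
          have : G.card ≤ (range J).card := by rw [hG]; exact card_filter_le _ _
          rw [card_range] at this
          exact_mod_cast this
        calc c * G.card * ((denseCls lam N E q).card : ℝ) ≤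
              c * J * ((denseCls lam N E q).card : ℝ) := by gcongr
          _ = ∑ _r ∈ denseCls lam N E q, (c * J) := by
              rw [sum_const, nsmul_eq_mul]
              ring
          _ ≤ _ := sum_le_sum fun r hr => hgood q hq r hr)
    have e : κ - 1 + 1 = κ := by ring
    rw [e] at h3
    exact h3
  by_cases hGne : G.Nonempty
  · have hG0 : (0 : ℝ) < G.card := by exact_mod_cast hGne.card_pos
    have hall : G.card * ((c / 2) ^ κ * ∑ q ∈ Ico Q (2 * Q),
        ((denseCls lam N E q).card : ℝ) ^ (κ - 1)) ≤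
        G.card * (2 * l * (8 * l / c₀ * ((E.card : ℝ) * Q / N)) ^ κ) := by
      calc _ = ∑ q ∈ Ico Q (2 * Q), G.card * (c / 2) ^ κ *
            ((denseCls lam N E q).card : ℝ) ^ (κ - 1) := by rw [← mul_sum]; ring
        _ ≤ ∑ q ∈ Ico Q (2 * Q), ∑ t ∈ G, (m q t : ℝ) ^ (κ - 1) := sum_le_sum havg
        _ = ∑ t ∈ G, ∑ q ∈ Ico Q (2 * Q), (m q t : ℝ) ^ (κ - 1) := sum_comm
        _ ≤ ∑ _t ∈ G, (2 * l * (8 * l / c₀ * ((E.card : ℝ) * Q / N)) ^ κ) := sum_le_sum hwin
        _ = _ := by rw [sum_const, nsmul_eq_mul]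
    have h3 := le_of_mul_le_mul_left hall hG0
    have h4 : 0 < (c / 2) ^ κ := by positivity
    have h5 : ∑ q ∈ Ico Q (2 * Q), ((denseCls lam N E q).card : ℝ) ^ (κ - 1) ≤
        C₂ * ((E.card : ℝ) * Q / N) ^ κ := by
      have h6 : (2 / c) ^ κ * (c / 2) ^ κ = 1 := by
        rw [← Real.mul_rpow (by positivity) (by positivity)]
        have : 2 / c * (c / 2) = 1 := by field_simp
        rw [this, Real.one_rpow]
      calc ∑ q ∈ Ico Q (2 * Q), ((denseCls lam N E q).card : ℝ) ^ (κ - 1)
          = (2 / c) ^ κ * ((c / 2) ^ κ * ∑ q ∈ Ico Q (2 * Q),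
              ((denseCls lam N E q).card : ℝ) ^ (κ - 1)) := by
            rw [← mul_assoc, h6, one_mul]
        _ ≤ (2 / c) ^ κ * (2 * l * (8 * l / c₀ * ((E.card : ℝ) * Q / N)) ^ κ) := by gcongr
        _ = C₂ * ((E.card : ℝ) * Q / N) ^ κ := by
            rw [hC₂, Real.mul_rpow (by positivity) (by positivity)]
            ring
    refine h5.trans ?_
    gcongr
  · have h3 : ∀ q ∈ Ico Q (2 * Q), ((denseCls lam N E q).card : ℝ) ^ (κ - 1) = 0 := by
      intro q hq
      have : denseCls lam N E q = ∅ := by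
        rw [eq_empty_iff_forall_notMem]
        intro r hr
        have h4 := hgood q hq r hr
        rw [not_nonempty_iff_eq_empty.1 hGne, filter_empty, card_empty, Nat.cast_zero] at h4
        have : 0 < c * J := by positivity
        linarith
      rw [this, card_empty, Nat.cast_zero, Real.zero_rpow hκ.ne']
    rw [sum_eq_zero h3]
    positivity

end Pool.Agent.K3h46.RB
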