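import Pool.Agent.K3h46.RB.Szem

/-!
# Many progressions in dense subsets of sets with small doubling
-/

set_option autoImplicit false

open Finset
open scoped Pointwise

namespace Pool.Agent.K3h46.RB

/-- the sums of `j` elements -/
theorem card_nsmul {T : Finset ℚ} {K : ℝ} (hne : T.Nonempty)
    (hT : ((T + T).card : ℝ) ≤ K * T.card) (m n : ℕ) :
    (((m • T - n • T : Finset ℚ)).card : ℝ) ≤ K ^ (m + n) * T.card := by
  have h := Finset.pluennecke_ruzsa_inequality_nsmul_sub_nsmul_add hne T m n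
  have h0 : (0 : ℝ) < T.card := by exact_mod_cast hne.card_pos
  have h' : (((m • T - n • T : Finset ℚ)).card : ℝ) ≤
      (((T + T).card : ℝ) / T.card) ^ (m + n) * T.card := by
    have h3 := (NNRat.cast_le (K := ℝ)).2 h
    push_cast at h3
    exact h3
  refine h'.trans ?_
  have h1 : ((T + T).card : ℝ) / T.card ≤ K := by
    rw [div_le_iff₀ h0]
    exact hT
  gcongr

/-- one nonzero element all of whose small multiples are in `2 T - 2 T` -/
theorem multiples {T : Finset ℚ} {K : ℝ} (hK : 1 ≤ K) (hT : ((T + T).card : ℝ) ≤ K * T.card)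
    (l : ℕ) (hl : K ^ ((l + 2) ^ 2) < T.card) :
    ∃ h : ℚ, h ≠ 0 ∧ ∀ j ≤ l, (j : ℚ) * h ∈ (T - T) - (T - T) := by
  classical
  have hne : T.Nonempty := by
    rw [← card_pos]
    have h1 : (0 : ℝ) < T.card := lt_of_le_of_lt (by positivity) hl
    exact_mod_cast h1
  -- the covers
  have hcov : ∀ j : ℕ, ∃ F : Finset ℚ, (F.card : ℝ) ≤ K ^ (j + 1) ∧ j • T ⊆ F + (T - T) := by
    intro j
    have h1 : ((j • T + T).card : ℝ) ≤ K ^ (j + 1) * T.card := by
      have h2 := card_nsmul hne hT (j + 1) 0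
      rw [zero_nsmul, sub_zero, add_zero, succ_nsmul] at h2
      exact h2
    obtain ⟨F, -, hF, hsub⟩ := Finset.ruzsa_covering_add hne h1
    exact ⟨F, hF, hsub⟩
  choose F hF1 hF2 using hcov
  have hmul : ∀ w ∈ T, ∀ j : ℕ, (j : ℚ) * w ∈ j • T := by
    intro w hw j
    rw [← nsmul_eq_mul]
    exact Finset.nsmul_mem_nsmul hw
  have hx : ∀ w : ℚ, ∀ j : ℕ, ∃ x : ℚ, w ∈ T → x ∈ F j ∧ (j : ℚ) * w - x ∈ T - T := by
    intro w j
    by_cases hw : w ∈ T
    · obtain ⟨x, hx, e, he, hxe⟩ := Finset.mem_add.1 (hF2 j (hmul w hw j))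
      refine ⟨x, fun _ => ⟨hx, ?_⟩⟩
      have : (j : ℚ) * w - x = e := by rw [← hxe]; ring
      rwa [this]
    · exact ⟨0, fun h => absurd h hw⟩
  choose x hx using hx
  -- the number of classes
  have hcard : (Fintype.piFinset fun j : Fin (l + 1) => F j).card < T.card := by
    have h1 : ((Fintype.piFinset fun j : Fin (l + 1) => F j).card : ℝ) ≤ K ^ ((l + 2) ^ 2) := by
      rw [Fintype.card_piFinset]
      push_cast
      calc ∏ j : Fin (l + 1), ((F j).card : ℝ) ≤ ∏ _j : Fin (l + 1), K ^ (l + 1) := by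
            refine Finset.prod_le_prod (fun _ _ => Nat.cast_nonneg _) fun j _ => ?_
            refine (hF1 j).trans (pow_le_pow_right₀ hK ?_)
            have := j.2
            omega
        _ = K ^ ((l + 1) * (l + 1)) := by
            rw [prod_const, card_univ, Fintype.card_fin, pow_mul]
        _ ≤ K ^ ((l + 2) ^ 2) := pow_le_pow_right₀ hK (by nlinarith)
    exact_mod_cast lt_of_le_of_lt h1 hl
  obtain ⟨w, hw, w', hw', hww, he⟩ := Finset.exists_ne_map_eq_of_card_lt_of_maps_to hcard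
    (f := fun w : ℚ => fun j : Fin (l + 1) => x w j) (by
      intro w hw
      rw [mem_coe, Fintype.mem_piFinset]
      exact fun j => (hx w j hw).1)
  refine ⟨w - w', sub_ne_zero.2 hww, fun j hj => ?_⟩
  have e1 := congrFun he ⟨j, by omega⟩
  simp only at e1
  have h1 := (hx w j hw).2
  have h2 := (hx w' j hw').2
  rw [e1] at h1
  have : (j : ℚ) * (w - w') = ((j : ℚ) * w - x w' j) - ((j : ℚ) * w' - x w' j) := by ring
  rw [this]
  exact Finset.sub_mem_sub h1 h2

/-- `H` contains a progression `z + (a + j d) h`, `j ≤ k`, with `a ≤ l`, `1 ≤ d ≤ l` -/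
def Has (k l : ℕ) (h : ℚ) (H : Finset ℚ) (z : ℚ) : Prop :=
  ∃ a ≤ l, ∃ d, 1 ≤ d ∧ d ≤ l ∧ ∀ j ≤ k, z + ((a : ℚ) + j * d) * h ∈ H

open Classical in
/-- **progressions in dense subsets of a set with small doubling** -/
theorem patterns (k : ℕ) (K lam : ℝ) (hK : 1 ≤ K) (hlam : 0 < lam) :
    ∃ (l M₀ : ℕ) (c : ℝ), 0 < c ∧ ∀ T : Finset ℚ, M₀ ≤ T.card →
      ((T + T).card : ℝ) ≤ K * T.card → ∃ (Z : Finset ℚ) (h : ℚ), h ≠ 0 ∧ Z.Nonempty ∧
        ∀ H ⊆ T, lam * T.card ≤ H.card →
          c * Z.card ≤ (Z.filter (Has k l h H)).card := by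
  obtain ⟨c, hc⟩ : ∃ c : ℝ, c = lam / K ^ 5 := ⟨_, rfl⟩
  have hc0 : 0 < c := by rw [hc]; positivity
  obtain ⟨D, hD1, hD⟩ := szem (k + 1) (c / 2) (by positivity)
  obtain ⟨M₀, hM₀⟩ := exists_nat_gt (K ^ ((D + 2) ^ 2))
  refine ⟨D, M₀, c / 2, by positivity, fun T hTM hT => ?_⟩
  have hTl : K ^ ((D + 2) ^ 2) < T.card := hM₀.trans_le (by exact_mod_cast hTM)
  have hne : T.Nonempty := by
    rw [← card_pos]
    have h1 : (0 : ℝ) < T.card := lt_of_le_of_lt (by positivity) hTl
    exact_mod_cast h1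
  obtain ⟨h, hh, hmul⟩ := multiples hK hT D hTl
  obtain ⟨Z, hZ⟩ : ∃ Z : Finset ℚ, Z = (T ×ˢ range (D + 1)).image fun p => p.1 - (p.2 : ℚ) * h :=
    ⟨_, rfl⟩
  have hZne : Z.Nonempty := by
    rw [hZ, Finset.image_nonempty]
    exact hne.product ⟨0, by simp⟩
  refine ⟨Z, h, hh, hZne, fun H hH hHc => ?_⟩
  have hZc : (Z.card : ℝ) ≤ K ^ 5 * T.card := by
    refine le_trans ?_ (card_nsmul hne hT 3 2)
    have : Z ⊆ 3 • T - 2 • T := by
      intro z hz
      rw [hZ, mem_image] at hz
      obtain ⟨⟨t, j⟩, hp, rfl⟩ := hz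
      rw [mem_product, mem_range] at hp
      obtain ⟨e, he, e', he', hee⟩ := Finset.mem_sub.1 (hmul j (by have := hp.2; simp only at this; omega))
      obtain ⟨a, ha, b, hb, rfl⟩ := Finset.mem_sub.1 he
      obtain ⟨a', ha', b', hb', rfl⟩ := Finset.mem_sub.1 he'
      have : t - (j : ℚ) * h = (t + b + a') - (a + b') := by
        rw [← hee]; ring
      simp only
      rw [this]
      refine Finset.sub_mem_sub ?_ ?_
      · have e3 : 3 • T = T + T + T := by
          rw [succ_nsmul, two_nsmul]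
        rw [e3]
        exact Finset.add_mem_add (Finset.add_mem_add hp.1 hb) ha'
      · rw [two_nsmul]
        exact Finset.add_mem_add ha hb'
    exact_mod_cast card_le_card this
  -- double counting
  obtain ⟨R, hR⟩ : ∃ R : ℚ → ℕ → Prop, ∀ z j, R z j ↔ z + (j : ℚ) * h ∈ H := ⟨_, fun _ _ => Iff.rfl⟩
  have hdc := Finset.sum_card_bipartiteAbove_eq_sum_card_bipartiteBelow R
    (s := Z) (t := range (D + 1))
  have hbelow : ∀ j ∈ range (D + 1), (bipartiteBelow R Z j).card = H.card := by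
    intro j hj
    have e : bipartiteBelow R Z j = H.image fun t => t - (j : ℚ) * h := by
      ext z
      rw [mem_bipartiteBelow, mem_image, hR]
      constructor
      · rintro ⟨_, h1⟩
        exact ⟨_, h1, by ring⟩
      · rintro ⟨t, ht, rfl⟩
        refine ⟨?_, by simpa using ht⟩
        rw [hZ, mem_image]
        exact ⟨(t, j), mem_product.2 ⟨hH ht, hj⟩, rfl⟩
    rw [e, card_image_of_injective]
    intro s t hst
    simpa using hst
  rw [sum_congr rfl hbelow, sum_const, card_range, smul_eq_mul] at hdc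
  -- the good z
  obtain ⟨G, hG⟩ : ∃ G : Finset ℚ, G = Z.filter fun z => c / 2 * ((D + 1 : ℕ) : ℝ) ≤
      (bipartiteAbove R (range (D + 1)) z).card := ⟨_, rfl⟩
  have hGc : c / 2 * Z.card ≤ G.card := by
    have h1 : (((D + 1) * H.card : ℕ) : ℝ) ≤
        G.card * ((D + 1 : ℕ) : ℝ) + Z.card * (c / 2 * ((D + 1 : ℕ) : ℝ)) := by
      rw [← hdc]
      push_cast
      rw [← sum_filter_add_sum_filter_not Z (fun z => c / 2 * ((D + 1 : ℕ) : ℝ) ≤
        (bipartiteAbove R (range (D + 1)) z).card), ← hG]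
      apply add_le_add
      · calc ∑ z ∈ G, ((bipartiteAbove R (range (D + 1)) z).card : ℝ) ≤
              ∑ _z ∈ G, ((D : ℝ) + 1) := by
              refine sum_le_sum fun z _ => ?_
              have h2 : (bipartiteAbove R (range (D + 1)) z).card ≤ (range (D + 1)).card :=
                card_le_card (filter_subset _ _)
              rw [card_range] at h2
              exact_mod_cast h2
          _ = G.card * ((D : ℝ) + 1) := by rw [sum_const, nsmul_eq_mul]
      · calc ∑ z ∈ Z.filter (fun z => ¬ c / 2 * ((D + 1 : ℕ) : ℝ) ≤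
              (bipartiteAbove R (range (D + 1)) z).card),
              ((bipartiteAbove R (range (D + 1)) z).card : ℝ) ≤
              ∑ _z ∈ Z.filter (fun z => ¬ c / 2 * ((D + 1 : ℕ) : ℝ) ≤
              (bipartiteAbove R (range (D + 1)) z).card), (c / 2 * ((D : ℝ) + 1)) := by
              refine sum_le_sum fun z hz => ?_
              have h2 := (mem_filter.1 hz).2
              push_cast at h2
              exact (not_le.1 h2).le
          _ ≤ Z.card * (c / 2 * ((D : ℝ) + 1)) := by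
              rw [sum_const, nsmul_eq_mul]
              gcongr
              exact filter_subset _ _
    have h2 : c * Z.card ≤ H.card := by
      refine le_trans ?_ hHc
      rw [hc, div_mul_eq_mul_div, div_le_iff₀ (by positivity)]
      calc lam * Z.card ≤ lam * (K ^ 5 * T.card) := by gcongr
        _ = lam * T.card * K ^ 5 := by ring
    push_cast at h1
    have h3 : (0 : ℝ) < (D : ℝ) + 1 := by positivity
    have h4 : ((D : ℝ) + 1) * H.card ≤ ((D : ℝ) + 1) * (G.card + c / 2 * Z.card) := by linarith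
    have h5 := le_of_mul_le_mul_left h4 h3
    linarith
  refine hGc.trans ?_
  norm_cast
  apply card_le_card
  intro z hz
  rw [hG, mem_filter] at hz
  rw [mem_filter]
  refine ⟨hz.1, ?_⟩
  obtain ⟨a, d, hd, had⟩ := hD (D + 1) (by omega) (bipartiteAbove R (range (D + 1)) z)
    (filter_subset _ _) hz.2
  have h0 := had 0 (by omega)
  have h1 := had 1 (by omega)
  rw [mem_bipartiteAbove, mem_range] at h0 h1
  refine ⟨a, by omega, d, hd, by omega, fun j hj => ?_⟩
  have h2 := had j (by omega)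
  rw [mem_bipartiteAbove, hR] at h2
  have h3 := h2.2
  push_cast at h3
  exact h3

/-- dense subsets of large sets with small doubling contain long progressions -/
theorem dense_prog (k : ℕ) (K lam : ℝ) (hK : 1 ≤ K) (hlam : 0 < lam) :
    ∃ M₀ : ℕ, ∀ T : Finset ℚ, M₀ ≤ T.card → ((T + T).card : ℝ) ≤ K * T.card →
      ∀ H ⊆ T, lam * T.card ≤ H.card → ∃ x y : ℚ, y ≠ 0 ∧ ∀ j : ℕ, j ≤ k → x + j * y ∈ H := by
  classical
  obtain ⟨l, M₀, c, hc, h⟩ := patterns k K lam hK hlam
  refine ⟨M₀, fun T hTM hT H hH hHc => ?_⟩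
  obtain ⟨Z, h, hh, hZ, hpat⟩ := h T hTM hT
  have h1 := hpat H hH hHc
  have h2 : (0 : ℝ) < c * Z.card := by
    have : (0 : ℝ) < Z.card := by exact_mod_cast hZ.card_pos
    positivity
  have h3 := h2.trans_le h1
  rw [Nat.cast_pos, card_pos] at h3
  obtain ⟨z, hz⟩ := h3
  obtain ⟨-, a, -, d, hd, -, hj⟩ := mem_filter.1 hz
  refine ⟨z + a * h, d * h, mul_ne_zero (by exact_mod_cast (by omega : d ≠ 0)) hh, fun j hjk => ?_⟩
  have := hj j hjk
  have e : z + a * h + j * (d * h) = z + ((a : ℚ) + j * d) * h := by ring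
  rwa [e]

end Pool.Agent.K3h46.RB
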