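import Pool.Agent.K3h46.RB.Doubling
import Pool.Agent.K3h46.MU.Slopes
import Pool.Agent.R470.AK.Part

/-!
# The inequality with multiplicities for the slopes of a progression
-/

set_option autoImplicit false

open Finset

namespace Pool.Agent.K3h46.RB

open Pool.Agent.K3h46.MU (proj projInf big Bound rep moment_slopes rep_pos sum_rep)

/-- the form `y + t (x - y)` -/
def form (t : ℚ) (p : ℤ × ℤ) : ℚ := (p.2 : ℚ) + t * ((p.1 : ℚ) - (p.2 : ℚ))

/-- the inequality with multiplicities after an affine change of the coordinate `1 / (r + 1)` -/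
theorem affine_moment {S : Finset ℚ} {κ : ℝ} (h1 : 1 ≤ κ) (h2 : κ ≤ 2) (hS : (-1 : ℚ) ∉ S)
    (h : Bound S κ) {a b : ℚ} (hb : b ≠ 0) (A : Finset (ℤ × ℤ)) (N : ℕ)
    (h0 : (A.image (form a)).card ≤ N)
    (hr : ∀ r ∈ S, (A.image (form (a + b * (1 / (r + 1))))).card ≤ N) :
    ∑ d ∈ A.image (fun p => p.1 - p.2), (rep A d : ℝ) ^ (κ - 1) ≤ (N : ℝ) ^ κ := by
  classical
  obtain ⟨q, hq⟩ : ∃ q : ℕ, q = a.den * b.den := ⟨_, rfl⟩
  have hq0 : (q : ℚ) ≠ 0 := by
    rw [hq]
    exact_mod_cast mul_ne_zero a.den_nz b.den_nz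
  obtain ⟨a', ha'⟩ : ∃ a' : ℤ, (a' : ℚ) = q * a := by
    refine ⟨a.num * b.den, ?_⟩
    rw [hq]
    push_cast
    rw [← Rat.mul_den_eq_num a]
    ring
  obtain ⟨b', hb'⟩ : ∃ b' : ℤ, (b' : ℚ) = q * b := by
    refine ⟨b.num * a.den, ?_⟩
    rw [hq]
    push_cast
    rw [← Rat.mul_den_eq_num b]
    ring
  have hb0 : b' ≠ 0 := by
    intro h3
    rw [h3] at hb'
    push_cast at hb'
    exact mul_ne_zero hq0 hb hb'.symm
  have hqz : (q : ℤ) ≠ 0 := by exact_mod_cast hq0
  obtain ⟨f, hf⟩ : ∃ f : ℤ × ℤ → ℤ × ℤ, ∀ p, f p =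
      (q * p.2 + a' * (p.1 - p.2) + b' * (p.1 - p.2), q * p.2 + a' * (p.1 - p.2)) :=
    ⟨fun p => (q * p.2 + a' * (p.1 - p.2) + b' * (p.1 - p.2), q * p.2 + a' * (p.1 - p.2)),
      fun _ => rfl⟩
  have hdiff : ∀ p, (f p).1 - (f p).2 = b' * (p.1 - p.2) := by
    intro p
    rw [hf]
    ring
  have hinj : Function.Injective f := by
    intro p p' hpp
    have e1 := hdiff p
    have e2 := hdiff p'
    rw [hpp, e2] at e1
    have e3 : p'.1 - p'.2 = p.1 - p.2 := mul_left_cancel₀ hb0 e1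
    have e4 : (f p).2 = (f p').2 := by rw [hpp]
    rw [hf, hf] at e4
    simp only at e4
    rw [e3] at e4
    have e5 : (q : ℤ) * p.2 = q * p'.2 := by linarith
    have e6 := mul_left_cancel₀ hqz e5
    ext
    · linarith
    · exact e6
  obtain ⟨A', hA'⟩ : ∃ A' : Finset (ℤ × ℤ), A' = A.image f := ⟨_, rfl⟩
  -- the projections of `A'`
  have hbig : big S A' ≤ N := by
    unfold big
    refine max_le ?_ (Finset.sup_le fun r hrS => ?_)
    · have e : projInf A' = (A.image (form a)).image fun x => (q : ℚ) * x := by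
        unfold projInf
        rw [hA', image_image, image_image]
        refine image_congr fun p _ => ?_
        simp only [Function.comp, hf, form]
        push_cast
        rw [ha']
        ring
      rw [e]
      exact card_image_le.trans h0
    · have hr1 : r + 1 ≠ 0 := fun h3 => hS (by
        have : r = -1 := by linarith
        rwa [this] at hrS)
      have e : proj r A' = (A.image (form (a + b * (1 / (r + 1))))).image
          fun x => (r + 1) * (q : ℚ) * x := by
        unfold proj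
        rw [hA', image_image, image_image]
        refine image_congr fun p _ => ?_
        simp only [Function.comp, hf, form]
        push_cast
        rw [ha', hb']
        field_simp
        ring
      rw [e]
      exact card_image_le.trans (hr r hrS)
  have hmom := moment_slopes h1 h2 h A'
  have hrep : ∀ d : ℤ, rep A' (b' * d) = rep A d := by
    intro d
    unfold rep
    have : A'.filter (fun p => p.1 - p.2 = b' * d) = (A.filter fun p => p.1 - p.2 = d).image f := by
      ext p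
      rw [mem_filter, mem_image, hA', mem_image]
      constructor
      · rintro ⟨⟨p', hp', rfl⟩, hd⟩
        rw [hdiff] at hd
        exact ⟨p', mem_filter.2 ⟨hp', mul_left_cancel₀ hb0 hd⟩, rfl⟩
      · rintro ⟨p', hp', rfl⟩
        rw [mem_filter] at hp'
        exact ⟨⟨p', hp'.1, rfl⟩, by rw [hdiff, hp'.2]⟩
    rw [this, card_image_of_injective _ hinj]
  have himg : A'.image (fun p => p.1 - p.2) = (A.image fun p => p.1 - p.2).image fun d => b' * d := by
    rw [hA', image_image, image_image]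
    refine image_congr fun p _ => ?_
    simp only [Function.comp, hdiff]
  rw [himg, sum_image (fun x _ y _ hxy => mul_left_cancel₀ hb0 hxy)] at hmom
  simp only [hrep] at hmom
  exact hmom.trans (Real.rpow_le_rpow (Nat.cast_nonneg _) (by exact_mod_cast hbig) (by linarith))

/-- the inequality with multiplicities for long progressions of slopes -/
theorem ap_moment {S : Finset ℚ} {κ : ℝ} (h1 : 1 ≤ κ) (h2 : κ ≤ 2) (hS : (-1 : ℚ) ∉ S)
    (h : Bound S κ) : ∃ k : ℕ, ∀ x y : ℚ, y ≠ 0 → ∀ (A : Finset (ℤ × ℤ)) (N : ℕ),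
      (∀ j : ℕ, j ≤ k → (A.image (form (x + j * y))).card ≤ N) →
      ∑ d ∈ A.image (fun p => p.1 - p.2), (rep A d : ℝ) ^ (κ - 1) ≤ (N : ℝ) ^ κ := by
  obtain ⟨k, q, p, hq, hpk, hj⟩ := Pool.Agent.R470.AK.fit S
  refine ⟨k, fun x y hy A N hN => ?_⟩
  refine affine_moment h1 h2 hS h (a := x + p * y) (b := q * y) (mul_ne_zero hq hy) A N
    (hN p hpk) fun r hr => ?_
  obtain ⟨j, hjk, hje⟩ := hj r hr
  have e : x + p * y + q * y * (1 / (r + 1)) = x + j * y := by
    rw [hje]
    unfold Pool.Agent.R470.AK.tm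
    ring
  rw [e]
  exact hN j hjk

theorem sum_rpow_le {ι : Type*} (s : Finset ι) (f : ι → ℝ) (hf : ∀ i ∈ s, 0 ≤ f i) {p : ℝ}
    (hp : 0 < p) (hp1 : p ≤ 1) : (∑ i ∈ s, f i) ^ p ≤ ∑ i ∈ s, (f i) ^ p := by
  classical
  induction s using Finset.induction_on with
  | empty => simp [Real.zero_rpow hp.ne']
  | insert a s ha ih =>
    rw [sum_insert ha, sum_insert ha]
    have h1 : 0 ≤ f a := hf a (mem_insert_self _ _)
    have h2 : 0 ≤ ∑ i ∈ s, f i := sum_nonneg fun i hi => hf i (mem_insert_of_mem hi)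
    refine (Real.rpow_add_le_add_rpow h1 h2 hp.le hp1).trans ?_
    gcongr
    exact ih fun i hi => hf i (mem_insert_of_mem hi)

/-- an averaging argument -/
theorem avg_rpow {ι : Type*} (Z : Finset ι) (g : ι → ℝ) {c R p : ℝ} (hc : 0 < c) (hR : 0 ≤ R)
    (hp : 0 < p) (hg0 : ∀ z ∈ Z, 0 ≤ g z) (hg : ∀ z ∈ Z, g z ≤ R)
    (hsum : c * Z.card * R ≤ ∑ z ∈ Z, g z) :
    Z.card * (c / 2) ^ (p + 1) * R ^ p ≤ ∑ z ∈ Z, (g z) ^ p := by
  classical
  rcases hR.eq_or_lt with h0 | h0
  · rw [← h0, Real.zero_rpow hp.ne', mul_zero]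
    exact sum_nonneg fun z hz => Real.rpow_nonneg (hg0 z hz) _
  · obtain ⟨G, hG⟩ : ∃ G : Finset ι, G = Z.filter fun z => c / 2 * R ≤ g z := ⟨_, rfl⟩
    have h1 : ∑ z ∈ Z, g z ≤ G.card * R + Z.card * (c / 2 * R) := by
      rw [← sum_filter_add_sum_filter_not Z (fun z => c / 2 * R ≤ g z), ← hG]
      apply add_le_add
      · calc ∑ z ∈ G, g z ≤ ∑ _z ∈ G, R := by
              refine sum_le_sum fun z hz => hg z ?_
              rw [hG] at hz
              exact (mem_filter.1 hz).1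
          _ = G.card * R := by rw [sum_const, nsmul_eq_mul]
      · calc ∑ z ∈ Z.filter (fun z => ¬ c / 2 * R ≤ g z), g z ≤
              ∑ _z ∈ Z.filter (fun z => ¬ c / 2 * R ≤ g z), (c / 2 * R) := by
              refine sum_le_sum fun z hz => ?_
              exact (not_le.1 (mem_filter.1 hz).2).le
          _ ≤ Z.card * (c / 2 * R) := by
              rw [sum_const, nsmul_eq_mul]
              gcongr
              exact filter_subset _ _
    have h2 : c / 2 * Z.card ≤ G.card := by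
      have h3 : (c / 2 * Z.card) * R ≤ G.card * R := by nlinarith
      exact le_of_mul_le_mul_right h3 h0
    have h4 : 0 < c / 2 := by linarith
    calc Z.card * (c / 2) ^ (p + 1) * R ^ p = (c / 2 * Z.card) * (c / 2 * R) ^ p := by
          rw [Real.mul_rpow h4.le h0.le, Real.rpow_add h4, Real.rpow_one]
          ring
      _ ≤ G.card * (c / 2 * R) ^ p := by
          apply mul_le_mul_of_nonneg_right h2
          positivity
      _ = ∑ _z ∈ G, (c / 2 * R) ^ p := by rw [sum_const, nsmul_eq_mul]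
      _ ≤ ∑ z ∈ G, (g z) ^ p := by
          refine sum_le_sum fun z hz => ?_
          rw [hG] at hz
          exact Real.rpow_le_rpow (by positivity) (mem_filter.1 hz).2 hp.le
      _ ≤ ∑ z ∈ Z, (g z) ^ p := by
          refine sum_le_sum_of_subset_of_nonneg (by rw [hG]; exact filter_subset _ _) ?_
          intro z hz _
          exact Real.rpow_nonneg (hg0 z hz) _

/-- **the robust inequality** -/
theorem robust {S : Finset ℚ} {κ : ℝ} (h1 : 1 < κ) (h2 : κ ≤ 2) (hS : (-1 : ℚ) ∉ S)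
    (h : Bound S κ) (K lam : ℝ) (hK : 1 ≤ K) (hlam : 0 < lam) :
    ∃ (C : ℝ) (M₀ : ℕ), 0 < C ∧ ∀ T : Finset ℚ, M₀ ≤ T.card →
      ((T.image₂ (· + ·) T).card : ℝ) ≤ K * T.card → ∀ (N : ℕ) (Y : ℚ → Finset ℚ),
      (∀ t ∈ T, (Y t).card ≤ N) → ∀ A : Finset (ℤ × ℤ),
      (∀ p ∈ A, lam * T.card ≤ (T.filter fun t => form t p ∈ Y t).card) →
      ∑ d ∈ A.image (fun p => p.1 - p.2), (rep A d : ℝ) ^ (κ - 1) ≤ C * (N : ℝ) ^ κ := by
  classical
  obtain ⟨k, hk⟩ := ap_moment h1.le h2 hS h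
  obtain ⟨l, M₀, c, hc, hpat⟩ := patterns k K lam hK hlam
  refine ⟨((l : ℝ) + 1) ^ 2 / (c / 2) ^ κ, M₀, by positivity, fun T hTM hT N Y hY A hA => ?_⟩
  obtain ⟨Z, h, hh, hZ, hgood⟩ := hpat T hTM hT
  have hZ0 : (0 : ℝ) < Z.card := by exact_mod_cast hZ.card_pos
  obtain ⟨H, hH⟩ : ∃ H : ℤ × ℤ → Finset ℚ, ∀ p, H p = T.filter fun t => form t p ∈ Y t :=
    ⟨_, fun _ => rfl⟩
  obtain ⟨B, hB⟩ : ∃ B : ℚ → Finset (ℤ × ℤ), ∀ z, B z = A.filter fun p => Has k l h (H p) z :=
    ⟨_, fun _ => rfl⟩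
  obtain ⟨I, hI⟩ : ∃ I : Finset (ℕ × ℕ), I = range (l + 1) ×ˢ Icc 1 l := ⟨_, rfl⟩
  obtain ⟨Bi, hBi⟩ : ∃ Bi : ℚ → ℕ × ℕ → Finset (ℤ × ℤ), ∀ z i, Bi z i = A.filter fun p =>
      ∀ j : ℕ, j ≤ k → z + ((i.1 : ℚ) + j * i.2) * h ∈ H p := ⟨_, fun _ _ => rfl⟩
  obtain ⟨D, hD⟩ : ∃ D : Finset ℤ, D = A.image (fun p => p.1 - p.2) := ⟨_, rfl⟩
  rw [← hD]
  -- one pattern
  have hone : ∀ z : ℚ, ∀ i ∈ I, ∑ d ∈ D, (rep (Bi z i) d : ℝ) ^ (κ - 1) ≤ (N : ℝ) ^ κ := by
    intro z i hi
    rw [hI, mem_product, mem_range, mem_Icc] at hi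
    have h3 := hk (z + i.1 * h) (i.2 * h)
      (mul_ne_zero (by exact_mod_cast (by omega : i.2 ≠ 0)) hh) (Bi z i) N (by
        intro j hj
        have e : z + i.1 * h + j * (i.2 * h) = z + ((i.1 : ℚ) + j * i.2) * h := by ring
        rw [e]
        by_cases hne : (Bi z i).Nonempty
        · obtain ⟨p, hp⟩ := hne
          rw [hBi, mem_filter] at hp
          have h4 := hp.2 j hj
          rw [hH, mem_filter] at h4
          refine le_trans (card_le_card ?_) (hY _ h4.1)
          intro w hw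
          obtain ⟨p', hp', rfl⟩ := mem_image.1 hw
          rw [hBi, mem_filter] at hp'
          have h5 := hp'.2 j hj
          rw [hH, mem_filter] at h5
          exact h5.2
        · rw [not_nonempty_iff_eq_empty.1 hne]
          simp)
    refine le_trans (le_of_eq ?_) h3
    symm
    refine sum_subset ?_ ?_
    · rw [hD, hBi]
      exact image_subset_image (filter_subset _ _)
    · intro d _ hd
      have h4 : rep (Bi z i) d = 0 := by
        unfold rep
        rw [card_eq_zero, filter_eq_empty_iff]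
        intro p hp hpd
        exact hd (mem_image.2 ⟨p, hp, hpd⟩)
      rw [h4, Nat.cast_zero, Real.zero_rpow (by linarith)]
  -- one z
  have hz : ∀ z : ℚ, ∑ d ∈ D, (rep (B z) d : ℝ) ^ (κ - 1) ≤ ((l : ℝ) + 1) ^ 2 * (N : ℝ) ^ κ := by
    intro z
    have h3 : ∀ d, rep (B z) d ≤ ∑ i ∈ I, rep (Bi z i) d := by
      intro d
      unfold rep
      refine le_trans (card_le_card ?_) card_biUnion_le
      intro p hp
      rw [mem_filter, hB, mem_filter] at hp
      obtain ⟨⟨hpA, a, ha, e, he1, he2, hj⟩, hpd⟩ := hp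
      rw [mem_biUnion]
      refine ⟨(a, e), ?_, ?_⟩
      · rw [hI, mem_product, mem_range, mem_Icc]
        exact ⟨by simp only; omega, he1, he2⟩
      · rw [mem_filter, hBi, mem_filter]
        exact ⟨⟨hpA, hj⟩, hpd⟩
    calc ∑ d ∈ D, (rep (B z) d : ℝ) ^ (κ - 1) ≤
          ∑ d ∈ D, ∑ i ∈ I, (rep (Bi z i) d : ℝ) ^ (κ - 1) := by
          refine sum_le_sum fun d _ => ?_
          refine le_trans ?_ (sum_rpow_le I (fun i => (rep (Bi z i) d : ℝ))
            (fun i _ => Nat.cast_nonneg _) (by linarith) (by linarith))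
          apply Real.rpow_le_rpow (Nat.cast_nonneg _) _ (by linarith)
          exact_mod_cast h3 d
      _ = ∑ i ∈ I, ∑ d ∈ D, (rep (Bi z i) d : ℝ) ^ (κ - 1) := sum_comm
      _ ≤ ∑ _i ∈ I, (N : ℝ) ^ κ := sum_le_sum fun i hi => hone z i hi
      _ = I.card * (N : ℝ) ^ κ := by rw [sum_const, nsmul_eq_mul]
      _ ≤ ((l : ℝ) + 1) ^ 2 * (N : ℝ) ^ κ := by
          gcongr
          rw [hI, card_product, card_range, Nat.card_Icc]
          push_cast
          have : (l : ℝ) ≤ l + 1 := by linarith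
          nlinarith [Nat.cast_nonneg (α := ℝ) l]
  -- one difference
  have hd : ∀ d : ℤ, Z.card * (c / 2) ^ κ * (rep A d : ℝ) ^ (κ - 1) ≤
      ∑ z ∈ Z, (rep (B z) d : ℝ) ^ (κ - 1) := by
    intro d
    have h3 := avg_rpow Z (fun z => (rep (B z) d : ℝ)) (c := c) (R := (rep A d : ℝ)) (p := κ - 1)
      hc (Nat.cast_nonneg _) (by linarith) (fun z _ => Nat.cast_nonneg _) (by
        intro z _
        have : rep (B z) d ≤ rep A d := by
          unfold rep
          rw [hB]
          exact card_le_card (filter_subset_filter _ (filter_subset _ _))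
        exact_mod_cast this) (by
        have hdc := Finset.sum_card_bipartiteAbove_eq_sum_card_bipartiteBelow
          (fun (p : ℤ × ℤ) (z : ℚ) => Has k l h (H p) z)
          (s := A.filter fun p => p.1 - p.2 = d) (t := Z)
        have e2 : ∀ z ∈ Z, (bipartiteBelow (fun (p : ℤ × ℤ) (z : ℚ) => Has k l h (H p) z)
            (A.filter fun p => p.1 - p.2 = d) z).card = rep (B z) d := by
          intro z _
          unfold rep bipartiteBelow
          rw [hB, filter_filter, filter_filter]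
          congr 1
          ext p
          simp only [mem_filter]
          tauto
        rw [sum_congr rfl e2] at hdc
        have hdc' : ∑ z ∈ Z, (rep (B z) d : ℝ) = ∑ p ∈ A.filter (fun p => p.1 - p.2 = d),
            ((bipartiteAbove (fun (p : ℤ × ℤ) (z : ℚ) => Has k l h (H p) z) Z p).card : ℝ) := by
          exact_mod_cast hdc.symm
        rw [hdc']
        calc c * Z.card * (rep A d : ℝ) = ∑ _p ∈ A.filter (fun p => p.1 - p.2 = d),
              (c * Z.card) := by
              rw [sum_const, nsmul_eq_mul]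
              unfold rep
              ring
          _ ≤ _ := by
              refine sum_le_sum fun p hp => ?_
              have hpA := (mem_filter.1 hp).1
              exact hgood (H p) (by rw [hH]; exact filter_subset _ _) (by rw [hH]; exact hA p hpA))
    have e : κ - 1 + 1 = κ := by ring
    rw [e] at h3
    exact h3
  -- all together
  have hall : Z.card * (c / 2) ^ κ * ∑ d ∈ D, (rep A d : ℝ) ^ (κ - 1) ≤
      Z.card * (((l : ℝ) + 1) ^ 2 * (N : ℝ) ^ κ) := by
    calc _ = ∑ d ∈ D, Z.card * (c / 2) ^ κ * (rep A d : ℝ) ^ (κ - 1) := by rw [mul_sum]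
      _ ≤ ∑ d ∈ D, ∑ z ∈ Z, (rep (B z) d : ℝ) ^ (κ - 1) := sum_le_sum fun d _ => hd d
      _ = ∑ z ∈ Z, ∑ d ∈ D, (rep (B z) d : ℝ) ^ (κ - 1) := sum_comm
      _ ≤ ∑ _z ∈ Z, (((l : ℝ) + 1) ^ 2 * (N : ℝ) ^ κ) := sum_le_sum fun z _ => hz z
      _ = _ := by rw [sum_const, nsmul_eq_mul]
  rw [mul_assoc] at hall
  have h3 := le_of_mul_le_mul_left hall hZ0
  rw [div_mul_eq_mul_div, le_div_iff₀ (by positivity)]
  linarith

end Pool.Agent.K3h46.RB
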