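import Pool.Agent.W142.ES.Line

/-!
# Szemerédi's theorem for intervals, from the density Hales-Jewett theorem
-/

set_option autoImplicit false

open Finset

namespace Pool.Agent.K3h46.RB

/-- sums along a combinatorial line -/
theorem line_sum {k n : ℕ} (L : Combinatorics.Line (Fin (k + 1)) (Fin n)) :
    ∃ s d : ℕ, 1 ≤ d ∧ ∀ a : Fin (k + 1), ∑ i, ((L a i : Fin (k + 1)) : ℕ) = s + a * d := by
  classical
  refine ⟨∑ i ∈ univ.filter (fun i => ¬ L.idxFun i = none), ((L 0 i : Fin (k + 1)) : ℕ),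
    (univ.filter fun i => L.idxFun i = none).card, ?_, fun a => ?_⟩
  · obtain ⟨i₀, hi₀⟩ := L.proper
    exact card_pos.2 ⟨i₀, mem_filter.2 ⟨mem_univ _, hi₀⟩⟩
  · rw [← sum_filter_add_sum_filter_not univ (fun i => L.idxFun i = none), add_comm]
    congr 1
    · refine sum_congr rfl fun i hi => ?_
      rw [mem_filter] at hi
      obtain ⟨v, hv⟩ := Option.ne_none_iff_exists'.1 hi.2
      rw [Combinatorics.Line.coe_apply, Combinatorics.Line.coe_apply, hv]
      rfl
    · rw [mul_comm, ← smul_eq_mul, ← sum_const]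
      refine sum_congr rfl fun i hi => ?_
      rw [mem_filter] at hi
      rw [Combinatorics.Line.coe_apply, hi.2]
      rfl

/-- **Szemerédi's theorem** -/
theorem szem (k : ℕ) (δ : ℝ) (hδ : 0 < δ) : ∃ D : ℕ, 1 ≤ D ∧ ∀ M : ℕ, D ≤ M →
    ∀ H : Finset ℕ, H ⊆ range M → δ * M ≤ H.card →
      ∃ a d : ℕ, 1 ≤ d ∧ ∀ j ≤ k, a + j * d ∈ H := by
  classical
  obtain ⟨n, hn1, hn⟩ := Pool.Agent.W142.ES.dhj_card (Fin (k + 1)) (δ / 2) (by positivity)
  refine ⟨n * k + 1, by omega, fun M hM H hH hc => ?_⟩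
  obtain ⟨R, hR⟩ : ∃ R : ℕ → (Fin n → Fin (k + 1)) → Prop, ∀ x u, R x u ↔
      ∃ h ∈ H, x + ∑ i, (u i : ℕ) = h + n * k := ⟨fun x u =>
        ∃ h ∈ H, x + ∑ i, (u i : ℕ) = h + n * k, fun _ _ => Iff.rfl⟩
  have hsum : ∀ u : Fin n → Fin (k + 1), ∑ i, (u i : ℕ) ≤ n * k := by
    intro u
    have : ∑ i, (u i : ℕ) ≤ ∑ _i : Fin n, k := sum_le_sum fun i _ => Nat.lt_succ_iff.1 (u i).2
    simpa using this
  have hdc := Finset.sum_card_bipartiteAbove_eq_sum_card_bipartiteBelow R
    (s := range (M + n * k)) (t := (univ : Finset (Fin n → Fin (k + 1))))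
  have hbelow : ∀ u ∈ (univ : Finset (Fin n → Fin (k + 1))),
      (bipartiteBelow R (range (M + n * k)) u).card = H.card := by
    intro u _
    have e : bipartiteBelow R (range (M + n * k)) u =
        H.image fun h => h + n * k - ∑ i, (u i : ℕ) := by
      ext x
      rw [mem_bipartiteBelow, mem_image, mem_range, hR]
      constructor
      · rintro ⟨_, h, hh, he⟩
        exact ⟨h, hh, by omega⟩
      · rintro ⟨h, hh, rfl⟩
        have h1 := hsum u
        have h2 := mem_range.1 (hH hh)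
        exact ⟨by omega, h, hh, by omega⟩
    rw [e, card_image_of_injOn]
    intro x _ y _ hxy
    have h1 := hsum u
    simp only at hxy
    omega
  rw [sum_congr rfl hbelow, sum_const, card_univ, Fintype.card_fun, Fintype.card_fin,
    Fintype.card_fin, smul_eq_mul] at hdc
  obtain ⟨x, -, hx⟩ : ∃ x ∈ range (M + n * k), δ / 2 * (Fintype.card (Fin (k + 1)) : ℝ) ^ n ≤
      (bipartiteAbove R univ x).card := by
    by_contra hcon
    push Not at hcon
    have h1 : ((∑ x ∈ range (M + n * k), (bipartiteAbove R univ x).card : ℕ) : ℝ) <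
        ∑ x ∈ range (M + n * k), δ / 2 * (Fintype.card (Fin (k + 1)) : ℝ) ^ n := by
      push_cast
      exact sum_lt_sum_of_nonempty ⟨0, mem_range.2 (by omega)⟩ hcon
    rw [hdc, sum_const, card_range, nsmul_eq_mul, Fintype.card_fin] at h1
    push_cast at h1
    have h2 : ((M : ℝ) + n * k) ≤ 2 * M := by
      have : n * k ≤ M := by omega
      have : ((n * k : ℕ) : ℝ) ≤ M := by exact_mod_cast this
      push_cast at this
      linarith
    have h3 : (0 : ℝ) < ((k : ℝ) + 1) ^ n := by positivity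
    have h4 : ((M : ℝ) + n * k) * (δ / 2 * ((k : ℝ) + 1) ^ n) ≤
        2 * M * (δ / 2 * ((k : ℝ) + 1) ^ n) := by gcongr
    have h5 : δ * M * ((k : ℝ) + 1) ^ n ≤ H.card * ((k : ℝ) + 1) ^ n := by gcongr
    linarith
  obtain ⟨L, hL⟩ := hn _ hx
  obtain ⟨s, d, hd, hsd⟩ := line_sum L
  have hmem : ∀ a : Fin (k + 1), ∃ h ∈ H, x + (s + a * d) = h + n * k := by
    intro a
    have h1 := hL a
    rw [mem_bipartiteAbove, hR] at h1
    rw [← hsd a]
    exact h1.2
  obtain ⟨h₀, hh₀, he₀⟩ := hmem 0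
  simp only [Fin.val_zero, zero_mul, add_zero] at he₀
  refine ⟨h₀, d, hd, fun j hj => ?_⟩
  obtain ⟨h, hh, he⟩ := hmem ⟨j, by omega⟩
  simp only at he
  have : h = h₀ + j * d := by omega
  rwa [← this]

end Pool.Agent.K3h46.RB
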